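import Pool.Agent.Helper95.PM.Stmts
import Pool.Agent.Helper63.PW.CSQ

/-!
# Molecules: Cauchy-Schwarz for the form of the molecule (row CSQM)
-/

set_option autoImplicit false

namespace Pool.Agent.Helper95.PW

open MeasureTheory Filter

theorem st_CSQM (h1 : ST_QHM) (h2 : ST_INTM) : ST_CSQM := by
  intro n M X Z E u v hE hu hau hv hav
  have key : ∀ a b : ℝ, 0 ≤ a ^ 2 * (QM X Z u - E * sq u) +
      2 * a * b * (QbM X Z u v - E * ip u v) + b ^ 2 * (QM X Z v - E * sq v) := by
    intro a b
    set ψ : Wf n := fun s x => a * u s x + b * v s x with hψ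
    have hs : Sm ψ := fun s => ⟨(contDiff_const.mul (hu s).1).add (contDiff_const.mul (hv s).1),
      ((hu s).2.mul_left).add ((hv s).2.mul_left)⟩
    have ha : Anti ψ := by
      intro π s x
      simp only [hψ]
      rw [hau π s x, hav π s x]
      ring
    have hL := hE ψ hs ha
    have hq : QbM X Z ψ ψ = a ^ 2 * QbM X Z u u + 2 * a * b * QbM X Z u v +
        b ^ 2 * QbM X Z v v := by
      unfold QbM
      have e1 : ∀ k i, ip (fun s => dv k i (ψ s)) (fun s => dv k i (ψ s)) =
          a ^ 2 * ip (fun s => dv k i (u s)) (fun s => dv k i (u s)) +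
            2 * a * b * ip (fun s => dv k i (u s)) (fun s => dv k i (v s)) +
            b ^ 2 * ip (fun s => dv k i (v s)) (fun s => dv k i (v s)) := by
        intro k i
        have e : (fun s => dv k i (ψ s)) = fun s x =>
            a * (fun s => dv k i (u s)) s x + b * (fun s => dv k i (v s)) s x := by
          funext s x
          exact csq_dv k i (u s) (v s) a b (hu s).1 (hv s).1 x
        rw [e]
        exact csq_ip _ _ a b (fun s => csq_dvc k i _ (hu s).1) (fun s => csq_dvs k i _ (hu s).2)
          (fun s => csq_dvc k i _ (hv s).1) (fun s => csq_dvs k i _ (hv s).2)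
      have e2 : ∀ s, ∫ x, (rep x - ∑ k, pot X Z (x k)) * (ψ s x * ψ s x) =
          a ^ 2 * (∫ x, (rep x - ∑ k, pot X Z (x k)) * (u s x * u s x)) +
            2 * a * b * (∫ x, (rep x - ∑ k, pot X Z (x k)) * (u s x * v s x)) +
            b ^ 2 * ∫ x, (rep x - ∑ k, pot X Z (x k)) * (v s x * v s x) := by
        intro s
        have hi : ∀ f g : Cf n → ℝ, ContDiff ℝ (⊤ : ℕ∞) f → HasCompactSupport f →
            ContDiff ℝ (⊤ : ℕ∞) g → HasCompactSupport g →
            Integrable (fun x => (rep x - ∑ k, pot X Z (x k)) * (f x * g x)) := by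
          intro f g hf hfc hg hgc
          obtain ⟨i1, i2, -, -⟩ := h2 n M X Z f g hf hfc hg hgc
          have := i2.sub i1
          refine this.congr (Eventually.of_forall fun x => ?_)
          show rep x * (f x * g x) - (∑ k, pot X Z (x k)) * (f x * g x) =
            (rep x - ∑ k, pot X Z (x k)) * (f x * g x)
          ring
        exact csq_quad (μ := volume) (fun x => rep x - ∑ k, pot X Z (x k)) (u s) (v s) a b
          (hi _ _ (hu s).1 (hu s).2 (hu s).1 (hu s).2)
          (hi _ _ (hu s).1 (hu s).2 (hv s).1 (hv s).2)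
          (hi _ _ (hv s).1 (hv s).2 (hv s).1 (hv s).2)
      simp only [e1, e2, Finset.sum_add_distrib, ← Finset.mul_sum]
      ring
    have hsq : sq ψ = a ^ 2 * sq u + 2 * a * b * ip u v + b ^ 2 * sq v := by
      rw [csq_sq, csq_sq, csq_sq]
      exact csq_ip u v a b (fun s => (hu s).1.continuous) (fun s => (hu s).2)
        (fun s => (hv s).1.continuous) (fun s => (hv s).2)
    rw [(h1 n M X Z ψ ψ hs hs).2, hq, hsq, ← (h1 n M X Z u u hu hu).2,
      ← (h1 n M X Z v v hv hv).2] at hL
    linarith
  have hd := discrim_le_zero (a := QM X Z u - E * sq u) (b := 2 * (QbM X Z u v - E * ip u v))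
    (c := QM X Z v - E * sq v) (fun t => by have := key t 1; nlinarith)
  unfold discrim at hd
  nlinarith

end Pool.Agent.Helper95.PW
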